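import Pool.Agent.H38.NP.Api

/-!
Binary arithmetic in polynomial time: lists of bits (least significant first), addition, powers of
two, complement, multiplication by a unary number, comparison.
-/

namespace Pool.Agent.Run7.h465.BN

open Pool.Agent.H38.NP Function

/-- value of a list of bits, least significant first -/
def val (l : List Bool) : ℕ := l.foldr (fun b n => b.toNat + 2 * n) 0

@[simp] theorem val_nil : val [] = 0 := rfl
@[simp] theorem val_cons (b : Bool) (l : List Bool) : val (b :: l) = b.toNat + 2 * val l := rfl

theorem val_append (l l' : List Bool) : val (l ++ l') = val l + 2 ^ l.length * val l' := by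
  induction l with
  | nil => simp
  | cons b l ih => rw [List.cons_append, val_cons, ih, val_cons, List.length_cons, pow_succ]; ring

theorem val_lt (l : List Bool) : val l < 2 ^ l.length := by
  induction l with
  | nil => simp
  | cons b l ih =>
    rw [val_cons, List.length_cons, pow_succ]
    have := Bool.toNat_le b
    omega

@[simp] theorem val_replicate_false (n : ℕ) : val (List.replicate n false) = 0 := by
  induction n with
  | zero => rfl
  | succ n ih => simp [List.replicate_succ, ih]

@[simp] theorem val_bits (n : ℕ) : val n.bits = n := by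
  induction n using Nat.binaryRec' with
  | zero => simp
  | bit b n h ih => rw [Nat.bits_append_bit _ _ h, val_cons, ih, Nat.bit_val]; ring

/-- removal of the leading zeros -/
def trim (l : List Bool) : List Bool :=
  l.foldr (fun b r => if b || !r.isEmpty then b :: r else []) []

theorem trim_cons (b : Bool) (l : List Bool) :
    trim (b :: l) = if b || !(trim l).isEmpty then b :: trim l else [] := rfl

theorem bits_val (l : List Bool) : (val l).bits = trim l := by
  induction l with
  | nil => simp [trim]
  | cons b l ih =>
    rw [trim_cons, val_cons, ← ih]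
    have e : b.toNat + 2 * val l = Nat.bit b (val l) := by rw [Nat.bit_val]; ring
    rw [e]
    by_cases h : val l = 0
    · cases b
      · simp [h]
      · simp [h, Nat.bits_append_bit 0 true]
    · have h2 : (val l).bits ≠ [] := by
        intro h3; apply h; have := val_bits (val l); rw [h3] at this; simpa using this.symm
      rw [Nat.bits_append_bit _ _ (fun h' => absurd h' h)]
      simp [h2]

theorem trim_sublist (l : List Bool) : (trim l).Sublist l := by
  induction l with
  | nil => simp [trim]
  | cons b l ih =>
    rw [trim_cons]
    split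
    · exact ih.cons_cons b
    · exact List.nil_sublist _

variable {α β : Type} [Enc α] [Enc β]

@[fun_prop] theorem pt_trim {l : α → List Bool} (hl : PT l) : PT fun a => trim (l a) := by
  refine PT.foldr (f := fun (_ : α) (b : Bool) (r : List Bool) =>
    if b || !r.isEmpty then b :: r else []) (by fun_prop) hl (PT.const []) hl.pb (fun a k => ?_)
  exact (sz_le_of_sublist (trim_sublist _)).trans (sz_le_of_sublist (List.drop_sublist _ _))

/-- a binary number from its bits -/
@[fun_prop] theorem pt_ofBits {l : α → List Bool} (hl : PT l) : PT fun a => Bin.mk (val (l a)) :=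
  (PT.bmk (pt_trim hl)).recast' fun a => by
    change trim (l a) = (val (l a)).bits
    rw [bits_val]

/-- the bits of a binary number -/
@[fun_prop] theorem pt_bits {f : α → Bin} (hf : PT f) : PT fun a => (f a).val.bits :=
  hf.raw.bval.of_eq fun _ => rfl

/-! ### addition -/

/-- padding -/
def pad (m : ℕ) (l : List Bool) : List Bool := l ++ List.replicate (m - l.length) false

@[simp] theorem val_pad (m : ℕ) (l : List Bool) : val (pad m l) = val l := by
  simp [pad, val_append]

theorem length_pad {m : ℕ} {l : List Bool} (h : l.length ≤ m) : (pad m l).length = m := by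
  simp [pad]; omega

@[fun_prop] theorem pt_pad {m : α → ℕ} {l : α → List Bool} (hm : PT m) (hl : PT l) :
    PT fun a => pad (m a) (l a) := by unfold pad; fun_prop

/-- one step of the addition; the state is the carry and the reversed output -/
def addStep (s : Bool × List Bool) (p : Bool × Bool) : Bool × List Bool :=
  ((s.1 && p.1) || (s.1 && p.2) || (p.1 && p.2), (s.1 ^^ p.1 ^^ p.2) :: s.2)

theorem addStep_fold (L : List (Bool × Bool)) (s : Bool × List Bool) :
    let r := L.foldl addStep s
    r.2.length = s.2.length + L.length ∧
    val r.2.reverse + 2 ^ r.2.length * r.1.toNat = val s.2.reverse + 2 ^ s.2.length *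
      (s.1.toNat + val (L.map Prod.fst) + val (L.map Prod.snd)) := by
  induction L generalizing s with
  | nil => simp
  | cons p L ih =>
    obtain ⟨h1, h2⟩ := ih (addStep s p)
    refine ⟨by simp only [List.foldl_cons, h1]; simp [addStep]; omega, ?_⟩
    simp only [List.foldl_cons, h2]
    obtain ⟨c, acc⟩ := s
    obtain ⟨x, y⟩ := p
    simp only [addStep, List.reverse_cons, val_append, List.length_reverse, List.length_cons,
      List.map_cons, val_cons, val_nil, pow_succ]
    rcases c <;> rcases x <;> rcases y <;> simp <;> ring

/-- the sum of two lists of bits -/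
def add (l l' : List Bool) : List Bool :=
  (((pad (l.length + l'.length + 1) l).zip (pad (l.length + l'.length + 1) l')).foldl addStep
    (false, [])).2.reverse

theorem val_add (l l' : List Bool) : val (add l l') = val l + val l' := by
  obtain ⟨h1, h2⟩ := addStep_fold ((pad (l.length + l'.length + 1) l).zip
    (pad (l.length + l'.length + 1) l')) (false, [])
  have e1 : (pad (l.length + l'.length + 1) l).length = l.length + l'.length + 1 :=
    length_pad (by omega)
  have e2 : (pad (l.length + l'.length + 1) l').length = l.length + l'.length + 1 :=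
    length_pad (by omega)
  rw [List.map_fst_zip (by rw [e1, e2]), List.map_snd_zip (by rw [e1, e2])] at h2
  simp only [List.length_nil, List.length_zip, e1, e2, Nat.min_self, Nat.zero_add,
    List.reverse_nil, val_nil, pow_zero, Bool.toNat_false, val_pad, one_mul] at h1 h2
  unfold add
  set r := ((pad (l.length + l'.length + 1) l).zip
    (pad (l.length + l'.length + 1) l')).foldl addStep (false, []) with hr
  have b1 := val_lt l
  have b2 := val_lt l'
  have p1 : 2 ^ l.length ≤ 2 ^ (l.length + l'.length) := Nat.pow_le_pow_right (by norm_num) (by omega)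
  have p2 : 2 ^ l'.length ≤ 2 ^ (l.length + l'.length) :=
    Nat.pow_le_pow_right (by norm_num) (by omega)
  rw [h1, pow_succ] at h2
  rcases hc : r.1 with _ | _
  · rw [hc] at h2; simp at h2; omega
  · rw [hc] at h2; simp at h2; omega

theorem sz_bool_list (l : List Bool) : sz l = 3 * l.length := by
  induction l with
  | nil => simp
  | cons b l ih => rw [sz_cons, ih]; simp [sz, enc]; omega

@[fun_prop] theorem pt_addBits {l l' : α → List Bool} (hl : PT l) (hl' : PT l') :
    PT fun a => add (l a) (l' a) := by
  have hm : PT fun a => (l a).length + (l' a).length + 1 := by fun_prop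
  have hz : PT fun a => (pad ((l a).length + (l' a).length + 1) (l a)).zip
    (pad ((l a).length + (l' a).length + 1) (l' a)) := by fun_prop
  have h := PT.foldl (f := fun (_ : α) s p => addStep s p) (by unfold addStep; fun_prop) hz
    (PT.const (false, [])) ((PB.const 3).add ((PB.const 3).mul hz.pb)) (fun a k => ?_)
  · exact (PT.reverse h.snd)
  · obtain ⟨h1, -⟩ := addStep_fold (List.take k ((pad ((l a).length + (l' a).length + 1)
      (l a)).zip (pad ((l a).length + (l' a).length + 1) (l' a)))) (false, [])
    rw [sz_prod, sz_bool_list, h1]
    have h2 : (List.take k ((pad ((l a).length + (l' a).length + 1)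
      (l a)).zip (pad ((l a).length + (l' a).length + 1) (l' a)))).length ≤ _ :=
      List.length_take_le' _ _
    have h3 := length_le_sz ((pad ((l a).length + (l' a).length + 1) (l a)).zip
      (pad ((l a).length + (l' a).length + 1) (l' a)))
    have h4 : ∀ b : Bool, sz b = 1 := fun b => by simp [sz, enc]
    rw [h4]
    simp only [List.length_nil, Nat.zero_add]
    omega

@[fun_prop] theorem pt_binAdd {f g : α → Bin} (hf : PT f) (hg : PT g) :
    PT fun a => Bin.mk ((f a).val + (g a).val) :=
  (pt_ofBits (pt_addBits (pt_bits hf) (pt_bits hg))).of_eq fun a => by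
    rw [val_add, val_bits, val_bits]

/-! ### other operations -/

@[fun_prop] theorem pt_binTwoPow {m : α → ℕ} (hm : PT m) : PT fun a => Bin.mk (2 ^ m a) :=
  (pt_ofBits (l := fun a => List.replicate (m a) false ++ [true]) (by fun_prop)).of_eq fun a => by
    rw [val_append]; simp

theorem val_map_not (l : List Bool) : val (l.map not) + val l + 1 = 2 ^ l.length := by
  induction l with
  | nil => simp
  | cons b l ih =>
    rw [List.map_cons, val_cons, val_cons, List.length_cons, pow_succ]
    cases b <;> simp <;> omega

theorem size_bits (n : ℕ) : n.bits.length = n.size := Nat.size_eq_bits_len n ▸ rfl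

/-- `2 ^ m - f`, for `f ≤ 2 ^ m` -/
theorem pt_binTwoPowSub {m : α → ℕ} {f : α → Bin} (hm : PT m) (hf : PT f)
    (h : ∀ a, (f a).val < 2 ^ m a) : PT fun a => Bin.mk (2 ^ m a - (f a).val) := by
  refine (pt_ofBits (l := fun a => add ((pad (m a) (f a).val.bits).map not) [true])
    (by fun_prop)).of_eq fun a => ?_
  have h1 : (f a).val.bits.length ≤ m a := by
    rw [size_bits]; exact Nat.size_le.2 (h a)
  have h2 := val_map_not (pad (m a) (f a).val.bits)
  rw [val_pad, val_bits, length_pad h1] at h2
  rw [val_add]
  congr 1
  simp only [val_cons, val_nil, Bool.toNat_true]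
  omega

theorem sz_bin (n : Bin) : sz n = n.val.size := by
  change n.val.bits.length = _
  exact size_bits _

theorem size_le_of_lt {n m : ℕ} (h : n < 2 ^ m) : n.size ≤ m := Nat.size_le.2 h

theorem lt_two_pow_sz (n : Bin) : n.val < 2 ^ sz n := by
  rw [sz_bin]; exact Nat.lt_size_self _

/-- multiplication by a unary number -/
@[fun_prop] theorem pt_binSmul {n : α → ℕ} {f : α → Bin} (hn : PT n) (hf : PT f) :
    PT fun a => Bin.mk (n a * (f a).val) := by
  have e : ∀ (v i : ℕ), (fun s : Bin => Bin.mk (s.val + v))^[i] ⟨0⟩ = ⟨i * v⟩ := by
    intro v i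
    induction i with
    | zero => simp
    | succ i ih => rw [iterate_succ_apply', ih]; simp; ring
  refine (PT.iterate (step := fun (a : α) (s : Bin) => Bin.mk (s.val + (f a).val)) (by fun_prop) hn
    (PT.const (Bin.mk 0)) (hn.nat_pb.add hf.pb) (fun a i hi => ?_)).of_eq fun a => e _ _
  rw [e, sz_bin]
  apply size_le_of_lt
  change i * (f a).val < _
  have h1 := lt_two_pow_sz (f a)
  have h2 : i < 2 ^ n a := lt_of_le_of_lt hi (Nat.lt_two_pow_self)
  rw [pow_add]
  exact Nat.mul_lt_mul_of_lt_of_le h2 h1.le (by positivity)

theorem pt_binConst (n : ℕ) : PT fun _ : α => Bin.mk n := PT.const _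

/-- a unary number in binary -/
@[fun_prop] theorem pt_toBin {n : α → ℕ} (hn : PT n) : PT fun a => Bin.mk (n a) :=
  (pt_binSmul hn (PT.const (Bin.mk 1))).of_eq fun a => by simp

/-- comparison -/
@[fun_prop] theorem pt_binLe {f g : α → Bin} (hf : PT f) (hg : PT g) :
    PT fun a => decide ((f a).val ≤ (g a).val) := by
  -- `f ≤ g` iff `g + (2^m - 1 - f)` has bit `m`, or `f = 0`... we use `g + (2^m - f) ≥ 2^m`
  have hm : PT fun a => (f a).val.bits.length + (g a).val.bits.length := by fun_prop
  have h : PT fun a => (add (g a).val.bits (add ((pad ((f a).val.bits.length +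
      (g a).val.bits.length) (f a).val.bits).map not) [true])).drop
      ((f a).val.bits.length + (g a).val.bits.length) := by fun_prop
  refine (PT.not (PT.isEmpty (pt_trim h))).of_eq fun a => ?_
  set m := (f a).val.bits.length + (g a).val.bits.length with hmd
  set w := add (g a).val.bits (add ((pad m (f a).val.bits).map not) [true]) with hw
  have e : ∀ l : List Bool, (trim l).isEmpty = decide (val l = 0) := by
    intro l
    rw [← bits_val]
    by_cases h : val l = 0
    · simp [h]
    · have h2 : (val l).bits ≠ [] := by
        intro h3; apply h; have := val_bits (val l); rw [h3] at this; simpa using this.symm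
      simp [h, h2]
  rw [e]
  have h2 := val_map_not (pad m (f a).val.bits)
  rw [val_pad, val_bits, length_pad (by omega)] at h2
  have hv : val w = (g a).val + (2 ^ m - (f a).val) := by
    rw [hw, val_add, val_add, val_bits]; simp; omega
  have hd : ∀ (l : List Bool) (k : ℕ), val (l.drop k) = val l / 2 ^ k := by
    intro l k
    induction k generalizing l with
    | zero => simp
    | succ k ih =>
      cases l with
      | nil => simp
      | cons b l =>
        rw [List.drop_succ_cons, ih, val_cons, pow_succ', ← Nat.div_div_eq_div_mul]
        congr 1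
        have := Bool.toNat_le b
        omega
  rw [hd, hv]
  by_cases h3 : (f a).val ≤ (g a).val
  · have : 2 ^ m ≤ (g a).val + (2 ^ m - (f a).val) := by omega
    have : 1 ≤ ((g a).val + (2 ^ m - (f a).val)) / 2 ^ m :=
      (Nat.le_div_iff_mul_le (by positivity)).2 (by omega)
    simp [h3]; omega
  · have : ((g a).val + (2 ^ m - (f a).val)) / 2 ^ m = 0 :=
      Nat.div_eq_of_lt (by omega)
    simp [h3]; omega

/-- a number from a given value -/
theorem pt_val {f : α → Bin} (hf : PT f) : PT fun a => Bin.mk (f a).val :=
  hf.of_eq fun _ => rfl

instance : Dec Bin := ⟨fun x => Bin.mk (val x.val), pt_ofBits (PT.bval PT.id'), fun n => by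
  change Bin.mk (val n.val.bits) = n
  rw [val_bits]⟩

end Pool.Agent.Run7.h465.BN
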